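import Pool.Agent.Helper27.KS.GoalsF

/-!
# The Kahn-Saks conjecture, goal GPS: the golden partition inequality
-/

namespace Pool.Agent.Helper16.KS

open MeasureTheory Filter Topology Finset
open Pool.Agent.Helper44.KS Pool.Agent.Helper75.KS Pool.Agent.Helper27.KS
open Pool.Agent.Helper89.GP

variable {n : ℕ} {R : Fin n → Fin n → Prop}

theorem LX_ad (u v : Fin n) (s : Equiv.Perm (Fin n)) :
    s ∈ LX (ad R u v) ↔ s ∈ LX R ∧ po s u < po s v := by
  rw [mem_LX, mem_LX]
  constructor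
  · intro h
    exact ⟨fun a b hab => h a b (Or.inl hab), h u v (Or.inr ⟨rfl, rfl⟩)⟩
  · rintro ⟨h1, h2⟩ a b (hab | ⟨rfl, rfl⟩)
    · exact h1 a b hab
    · exact h2

theorem Pr_compl (h : (LX R).Nonempty) {u v : Fin n} (huv : u ≠ v) :
    (Pr R fun s => po s v < po s u) = 1 - Pr R fun s => po s u < po s v := by
  have h1 := Pr_add (R := R) (p := fun s => po s u < po s v) (q := fun s => po s v < po s u)
    (s := fun _ => True) (fun s _ => by
      have := po_lt_or (σ := s) huv
      tauto) (fun s _ h1 h2 => absurd h1 (not_lt.2 (le_of_lt h2)))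
  rw [Pr_true h] at h1
  linarith

/-- The bounds for both orders. -/
theorem Pr_both (h : (LX R).Nonempty) {a b : Fin n} (hab : a ≠ b)
    (h1 : |(Pr R fun s => po s a < po s b) - 1 / 2| ≤ 1 / 100) (u v : Fin n)
    (huv : (u = a ∧ v = b) ∨ (u = b ∧ v = a)) :
    49 / 100 ≤ (Pr R fun s => po s u < po s v) ∧ (Pr R fun s => po s u < po s v) ≤ 51 / 100 := by
  have h2 := abs_le.1 h1
  rcases huv with ⟨rfl, rfl⟩ | ⟨rfl, rfl⟩
  · constructor <;> linarith [h2.1, h2.2]
  · rw [Pr_compl h hab]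
    constructor <;> linarith [h2.1, h2.2]

theorem card_le_of_Pr (p : Equiv.Perm (Fin n) → Prop) [DecidablePred p] (h : (LX R).Nonempty)
    (hp : Pr R p ≤ 51 / 100) : (((LX R).filter p).card : ℝ) ≤ 51 / 100 * (LX R).card := by
  rw [Pr_def, div_le_iff₀ (card_pos_real h)] at hp
  exact hp

/-- GPS. -/
theorem gps (h1 : KsgStmt) (h2 : StbStmt) : GpsStmt := by
  classical
  obtain ⟨S0, hS0, hK⟩ := h1 (1 / 100) (by norm_num)
  obtain ⟨c', S2, hc', hS2, hB⟩ := h2
  refine ⟨max S0 (max S2 (S0 / c')), fun n R hR hz => ?_⟩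
  obtain ⟨z0, hz0⟩ := hz
  obtain ⟨x, -, hx⟩ := Finset.exists_max_image univ (dev R) ⟨z0, mem_univ _⟩
  have hx' : ∀ z, dev R z ≤ dev R x := fun z => hx z (mem_univ _)
  have hS : max S0 (max S2 (S0 / c')) ≤ dev R x := le_trans hz0 (hx' z0)
  have hS01 : S0 ≤ dev R x := le_trans (le_max_left _ _) hS
  have hS21 : S2 ≤ dev R x := le_trans (le_trans (le_max_left _ _) (le_max_right _ _)) hS
  have hSc1 : S0 / c' ≤ dev R x :=
    le_trans (le_trans (le_max_right _ _) (le_max_right _ _)) hS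
  obtain ⟨a, b, hab, hPab⟩ := hK n R hR ⟨x, hS01⟩
  have hbd := Pr_both hR hab hPab
  refine ⟨a, b, hab, ?_, ?_, ?_⟩
  · intro hRab
    have h3 := (hbd b a (Or.inr ⟨rfl, rfl⟩)).1
    have h4 : (Pr R fun s => po s b < po s a) = 0 :=
      Pr_eq_zero (fun s hs => not_lt.2 (le_of_lt (mem_LX.1 hs a b hRab)))
    rw [h4] at h3
    norm_num at h3
  · intro hRba
    have h3 := (hbd a b (Or.inl ⟨rfl, rfl⟩)).1
    have h4 : (Pr R fun s => po s a < po s b) = 0 :=
      Pr_eq_zero (fun s hs => not_lt.2 (le_of_lt (mem_LX.1 hs b a hRba)))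
    rw [h4] at h3
    norm_num at h3
  · intro u v huv
    have huv' : u ≠ v := by
      rcases huv with ⟨rfl, rfl⟩ | ⟨rfl, rfl⟩
      · exact hab
      · exact hab.symm
    have hP := hbd u v huv
    obtain ⟨s0, hs0, hs0'⟩ := exists_of_Pr_pos (R := R) (p := fun s => po s u < po s v)
      (by linarith [hP.1])
    have hR' : (LX (ad R u v)).Nonempty := ⟨s0, (LX_ad u v s0).2 ⟨hs0, hs0'⟩⟩
    obtain ⟨z, hz⟩ := hB n R u v x hR huv' (by linarith [hP.1]) hx' hS21
    have hz' : S0 ≤ dev (ad R u v) z := by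
      refine le_trans ?_ hz
      rw [div_le_iff₀ hc'] at hSc1
      linarith
    obtain ⟨c, d, hcd, hPcd⟩ := hK n (ad R u v) hR' ⟨z, hz'⟩
    refine ⟨c, d, hcd, fun w t hwt => ?_⟩
    have hP' := Pr_both hR' hcd hPcd w t hwt
    have hA := card_le_of_Pr (R := R) (fun s => po s u < po s v) hR hP.2
    have hB' := card_le_of_Pr (R := ad R u v) (fun s => po s w < po s t) hR' hP'.2
    have e1 : LX (ad R u v) = (LX R).filter fun s => po s u < po s v := by
      ext s
      rw [LX_ad, mem_filter]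
    have e2 : ((LX R).filter fun s => s u < s v ∧ s w < s t) =
        (LX (ad R u v)).filter fun s => po s w < po s t := by
      ext s
      rw [mem_filter, mem_filter, LX_ad]
      simp only [po_lt]
      tauto
    have e3 : ((LX R).filter fun s => s u < s v) = LX (ad R u v) := by
      rw [e1]
      rfl
    rw [e2, e3]
    rw [← e1] at hA
    have h5 : ((LX (ad R u v)).card : ℝ) +
        (((LX (ad R u v)).filter fun s => po s w < po s t).card : ℝ) ≤ (LX R).card := by
      have h6 : (0 : ℝ) ≤ (LX R).card := Nat.cast_nonneg _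
      linarith
    exact_mod_cast h5

end Pool.Agent.Helper16.KS
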